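import Pool.Agent.Lorentz.Operator

/-!
# Operators on `L^{p,2}`, `p > 2`, all of whose blocks are bounded away from zero
-/

open MeasureTheory Set
open scoped ENNReal

namespace Pool.Agent.Results.MP_027bd7_an.BlocksP2

open LorentzBlocks

/-- For every `p > 2` the class `D(L^{p,2})` is non-empty. Hence the conjectured description
`D(L^{p,q}) ≠ ∅ ↔ (1 ≤ q ≤ p ≤ 2 or 2 ≤ p ≤ q ≤ ∞)` is false. -/
theorem result :
    (∀ p : ℝ, 2 < p → DNonempty p 2) ∧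
    ¬ (∀ (p : ℝ) (q : ℝ≥0∞), 1 < p → 1 ≤ q →
      (DNonempty p q ↔
        ((1 ≤ q ∧ q ≤ ENNReal.ofReal p ∧ p ≤ 2) ∨ (2 ≤ p ∧ ENNReal.ofReal p ≤ q ∧ q ≤ ∞)))) := by
  refine ⟨fun p hp => calD_nonempty hp, fun h => ?_⟩
  have h1 := (h 4 2 (by norm_num) (by norm_num)).1 (calD_nonempty (by norm_num))
  rcases h1 with ⟨_, _, h2⟩ | ⟨_, h2, _⟩
  · norm_num at h2
  · rw [← ENNReal.ofReal_ofNat 2, ENNReal.ofReal_le_ofReal_iff (by norm_num)] at h2
    norm_num at h2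

end Pool.Agent.Results.MP_027bd7_an.BlocksP2
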